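import Pool.Agent.Helper44K9.AL.Tr2

/-!
# The Alternative Hypothesis fails at a logarithmic rate

There is an absolute constant `A` such that, on the Riemann hypothesis, the following holds for every
`c > 0`: for all but `o(X)` of the `T` in `[X, 2 X]` there is a zero `1/2 + i γ_j` with
`|γ_j - T| ≤ (log X)^4` whose normalised spacing `d_j` has distance at least `(log X)^(-A)` from every
positive half-integer `1/2, 1, 3/2, 2, ...`.  Here
`d_j = γ_{j+1} log (γ_{j+1} / c) / 2π - γ_j log (γ_j / c) / 2π`; `c = 1` is the normalisation of the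
problem, and no choice of the constant `c` helps.  So the half-integers of the Alternative
Hypothesis cannot be approached at the rate `(log γ_j)^(-A)`, not even in a positive proportion of
short windows.

Idea of the proof.  If no such `j` exists in the window around `T`, then the zeros of the window are
simple and separated by a constant over `log X`, and `exp(2 i γ log (γ / c))` is nearly constant on
them.  Consider the sum `S_θ` of `W(γ - T) exp(i θ γ log (γ / c)) / ζ'(ρ)` over the zeros, `W` a
smooth weight of length `(log X)^2`.  The residue theorem gives `S_0 = 1` up to a small error (the term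
`n = 1` of `Σ μ(n) n^{-s}`).  With the functional equation `S_{-2}` is a sum of `μ(n)` over `n` near
`T` (times a constant) with additive phases; Plancherel's theorem turns its mean square over `T` into
short exponential sums of the Moebius function, which are small on average by the theorem of
Matomäki and Radziwiłł (starting files).  Near constancy of the phases gives `|S_{-2}| = |S_0|` up
to an error of size `(log X)^(-A)` times the sum of `1 / |ζ'(ρ)|` over the window.  That sum is at
most a fixed power of `log X` for almost all `T`: at a zero `ρ` whose neighbours are separated,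
`-log |ζ'(ρ)|` is at most `|Σ_{p ≤ e^{4 L}} w(p) p^{-1/2-iγ}| + C (log log X + log X / L)` for every
length `L` of the prime sum (an explicit formula with a smooth kernel, used near the critical line),
and high moments of the prime sum, at the points near the separated zeros, bound the number of zeros
with `-log |ζ'(ρ)|` large.
-/

set_option autoImplicit false

open Filter Topology MeasureTheory

namespace Pool.Agent.Results.MP_f0209c_nt.LogPowerRate

/-- multiplicity of `s` as a zero of the Riemann zeta function (order of vanishing at `s`) -/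
noncomputable def zmult (s : ℂ) : ℕ := analyticOrderNatAt riemannZeta s

/-- the number of nontrivial zeros of `ζ` with ordinate in `(0, t]`, with multiplicity -/
noncomputable def NZ (t : ℝ) : ℕ :=
  ∑ᶠ s ∈ {s : ℂ | riemannZeta s = 0 ∧ 0 < s.re ∧ s.re < 1 ∧ 0 < s.im ∧ s.im ≤ t}, zmult s

/-- for `j ≥ 1`: the `j`-th positive ordinate `γ j` of a nontrivial zero of `ζ`, the ordinates being
listed in nondecreasing order and repeated according to multiplicity -/
noncomputable def γ (j : ℕ) : ℝ := sInf {t : ℝ | j ≤ NZ t}

/-- the normalised spacings `(γ_{j+1} log (γ_{j+1} / c) - γ_j log (γ_j / c)) / 2π`; for `c = 1`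
these are the `d_j` of the problem -/
noncomputable def d (c : ℝ) (j : ℕ) : ℝ :=
  (γ (j + 1) * Real.log (γ (j + 1) / c) - γ j * Real.log (γ j / c)) / (2 * Real.pi)

/-- There is an absolute constant `A` such that, on the Riemann hypothesis and for every `c > 0`, the
measure of the set of all `T ∈ [X, 2 X]` such that every zero `1/2 + i γ_j` with
`|γ_j - T| ≤ (log X)^4` has its normalised spacing `d_j` within less than `(log X) ^ (-A)` of a
positive half-integer is `o(X)`. -/
theorem result : ∃ A : ℕ, RiemannHypothesis → ∀ c : ℝ, 0 < c →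
    Tendsto (fun X : ℝ => volume.real {T : ℝ | T ∈ Set.Icc X (2 * X) ∧
      ∀ j : ℕ, 1 ≤ j → |γ j - T| ≤ Real.log X ^ 4 →
        ∃ k : ℕ, 1 ≤ k ∧ |d c j - k / 2| < 1 / Real.log X ^ A} / X) atTop (𝓝 0) := by
  obtain ⟨A, hA⟩ := Helper44K9.AL.windows2
  refine ⟨A, fun RH c hc => ?_⟩
  rw [Metric.tendsto_atTop]
  intro ε hε
  obtain ⟨X0, h3, h⟩ := hA RH c hc (ε / 2) (half_pos hε)
  refine ⟨X0, fun X hX => ?_⟩
  have hX0 : 0 < X := by linarith
  have h1 := h X hX
  have e : {T : ℝ | T ∈ Set.Icc X (2 * X) ∧ ∀ j : ℕ, 1 ≤ j → |γ j - T| ≤ Real.log X ^ 4 →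
      ∃ k : ℕ, 1 ≤ k ∧ |d c j - k / 2| < 1 / Real.log X ^ A} =
      {T : ℝ | T ∈ Set.Icc X (2 * X) ∧ ∀ n : ℕ, 1 ≤ n → |SG.ord n - T| ≤ Helper44K9.AR.ll X →
        ¬ Helper44K9.AR.Far c (1 / Real.log X ^ A) n} := by
    ext T
    have e1 : ∀ n, (∃ k : ℕ, 1 ≤ k ∧ |d c n - k / 2| < 1 / Real.log X ^ A) ↔
        ¬ Helper44K9.AR.Far c (1 / Real.log X ^ A) n := by
      intro n
      unfold Helper44K9.AR.Far
      push Not
      exact Iff.rfl
    simp only [e1]
    exact Iff.rfl
  rw [e, Real.dist_eq, sub_zero, abs_of_nonneg (by positivity), div_lt_iff₀ hX0]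
  calc _ ≤ ε / 2 * X := h1
    _ < ε * X := by nlinarith

end Pool.Agent.Results.MP_f0209c_nt.LogPowerRate
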