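import Pool.Agent.Helper72K9.SQ.Dis
import Pool.Agent.Helper72K9.SQ.Mean

/-!
Assume the Riemann hypothesis.  The normalised spacings `d_j` of the zeta zeros cannot follow modulo
`s ≥ 1` a pattern whose partial sums are more regular than a random walk.  Let `a` be a real sequence,
`S_n = a_0 + ... + a_(n-1)` and `e(x) = exp(2 π i x)`.

(I) Suppose that for ONE integer `N ≥ 576 s` and one complex number `μ` the sums of `e(S_n / s) - μ`
over all windows of at most `N` consecutive integers `n` have absolute value at most `√(N / s) / 500`.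
Then a positive proportion of the spacings `d_j` stays away from `a_j + s ℤ`.

(II) If almost all spacings are near `a_j + s ℤ`, then for each `L ≥ 4 s` the sum of `e(S_n / s)` over
the zeros in a window of length `2 π L / log T` (about `L` zeros) at the height `T` has mean square at
least `L / (600 s)`.

(III) In particular: if the Alternative Hypothesis holds for almost all spacings, `d_j` near
`k_j / 2`, then the signs `σ_n = (-1) ^ (k_1 + ... + k_(n-1))` (the parity of the `n`-th zero in the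
half-integral lattice) have at every scale `N ≥ 576`, and with respect to every mean value `μ`, windows
of at most `N` integers in which the sum of `σ_n - μ` is larger than `√N / 500` in absolute value; and
for each `L ≥ 4` the mean square of the sum of the signs over windows of `L` mean spacings is at least
`L / 600`.  So the half-integral lattice of the Alternative Hypothesis would have to be filled in an
irregular way, at all scales; periodic, quasi-periodic or automatic patterns with small discrepancy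
are excluded.

Idea of the proof of (I).  Let `θ = 1 / s ≤ 1`.  A block interpolation of the partial sums gives
`e(θ S_n) = μ + s_n + (Q_(n+1) - Q_n)` with `|s_n| ≤ √(θ / N) / 500`, `|Q_n| ≤ √(θ N) / 250`.  If
almost all spacings were near `a_j + s ℤ`, then the exponential sum over nearby zeros at the
frequency `θ + β` would be the sum of `e(θ S_n + β y_n)`.  For `β` of size `1 / N` the mean square of
the part with `μ` is small by Montgomery's theorem near the frequency `0`, that of the part with `Q` is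
small by summation by parts and Plancherel's theorem, and that of the part with `s_n` by a bound for the
number of pairs of zeros; whereas Montgomery's theorem near the frequency `θ` gives a multiple of
`θ / N`.  The case of bounded `Q` and `s_n = 0` (periodic patterns) is a starting result.  (II) follows
from the same lower bound near the frequency `θ` by Plancherel's theorem for the sums over windows.
-/

open Filter

namespace Pool.Agent.Results.MP_f0209c_nt.SquareRootIrregularity

/-- multiplicity of `s` as a zero of the Riemann zeta function (order of vanishing at `s`) -/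
noncomputable def zmult (s : ℂ) : ℕ := analyticOrderNatAt riemannZeta s

/-- the number of nontrivial zeros of `ζ` with ordinate in `(0, t]`, with multiplicity -/
noncomputable def NZ (t : ℝ) : ℕ :=
  ∑ᶠ s ∈ {s : ℂ | riemannZeta s = 0 ∧ 0 < s.re ∧ s.re < 1 ∧ 0 < s.im ∧ s.im ≤ t}, zmult s

/-- for `j ≥ 1`: the `j`-th positive ordinate `γ j` of a nontrivial zero of `ζ`, the ordinates being
listed in nondecreasing order and repeated according to multiplicity -/
noncomputable def γ (j : ℕ) : ℝ := sInf {t : ℝ | j ≤ NZ t}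

/-- the normalised spacings `d_j = γ_{j+1} log γ_{j+1} / 2π - γ_j log γ_j / 2π` -/
noncomputable def d (j : ℕ) : ℝ :=
  (γ (j + 1) * Real.log (γ (j + 1)) - γ j * Real.log (γ j)) / (2 * Real.pi)

/-- `e(x) = exp (2 π i x)` -/
noncomputable def e (x : ℝ) : ℂ := Complex.exp (2 * Real.pi * x * Complex.I)

/-- the sums of `f n - μ` over all windows of at most `N` consecutive natural numbers `n` have
absolute value at most `D` -/
def WindowSums (f : ℕ → ℂ) (μ : ℂ) (N : ℕ) (D : ℝ) : Prop :=
  ∀ m j : ℕ, j ≤ N → ‖∑ i ∈ Finset.range j, (f (m + i) - μ)‖ ≤ D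

lemma e_eq (x : ℝ) : H177.Lat.ee x = e x := by
  unfold H177.Lat.ee e
  push_cast
  rfl

lemma e_add (x y : ℝ) : e (x + y) = e x * e y := by
  rw [← e_eq, ← e_eq, ← e_eq, H177.Lat.ee_add]

lemma e_int (x : ℤ) : e x = 1 := by
  unfold e
  rw [Complex.exp_eq_one_iff]
  exact ⟨x, by push_cast; ring⟩

lemma e_half : e (1 / 2) = -1 := by
  unfold e
  have h : (2 * Real.pi * ((1 / 2 : ℝ) : ℂ) * Complex.I : ℂ) = Real.pi * Complex.I := by
    push_cast
    ring
  rw [h, Complex.exp_pi_mul_I]

/-- On the Riemann hypothesis, with `S_n = a_0 + ... + a_(n-1)`: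
(I) Let `s ≥ 1`, let `a` be a real sequence, and suppose that for some `N ≥ 576 s` and some `μ` the
window sums of length at most `N` of `e(S_n / s) - μ` are at most `√(N / s) / 500`.  Then there is
`ε > 0` such that for all large `X` at least `ε X` of the indices `1 ≤ j ≤ X` satisfy
`|d_j - (a_j + s k)| ≥ ε` for all integers `k`.
(II) Let `s ≥ 1`, let `a` be a real sequence, and suppose that for each `ε > 0` and all large `X` at
most `ε X` of the indices `1 ≤ j ≤ X` satisfy `|d_j - (a_j + s k)| ≥ ε` for all integers `k`.  Then for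
each `L ≥ 4 s` and all large `T` the mean square over `T ≤ τ ≤ 2 T` of the sum of `e(S_n / s)` over the
`n` with `NZ(τ) < n ≤ NZ(τ + 2 π L / log T)` (the zeros with ordinates in this window) is at least
`L / (600 s)`.
(III) Let `k_j` be integers such that for each `ε > 0` the number of the `1 ≤ j ≤ X` with
`|d_j - k_j / 2| ≥ ε` is at most `ε X` for all large `X` (the Alternative Hypothesis for almost all
spacings), and let `σ_n = (-1) ^ (k_1 + ... + k_(n-1))` (or any signs with
`σ_(n+1) = (-1) ^ (k_n) σ_n` for `n ≥ 1`).  Then for all `N ≥ 576` and all `μ` some window sum of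
length at most `N` of `σ_n - μ` is larger than `√N / 500`; and for each `L ≥ 4` and all large `T` the
mean square over `T ≤ τ ≤ 2 T` of the sum of `σ_n` over `NZ(τ) < n ≤ NZ(τ + 2 π L / log T)` is at least
`L / 600`. -/
theorem result (RH : RiemannHypothesis) :
    (∀ (s : ℝ) (a : ℕ → ℝ) (N : ℕ) (μ : ℂ), 1 ≤ s → 576 * s ≤ N →
      WindowSums (fun n => e ((∑ i ∈ Finset.range n, a i) / s)) μ N (√(N / s) / 500) →
      ∃ ε : ℝ, 0 < ε ∧ ∀ᶠ X : ℕ in atTop,
        ε * X ≤ ({j : ℕ | 1 ≤ j ∧ j ≤ X ∧ ∀ k : ℤ, ε ≤ |d j - (a j + s * k)|}.ncard : ℝ)) ∧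
    (∀ (s : ℝ) (a : ℕ → ℝ), 1 ≤ s →
      (∀ ε : ℝ, 0 < ε → ∀ᶠ X : ℕ in atTop,
        ({j : ℕ | 1 ≤ j ∧ j ≤ X ∧ ∀ k : ℤ, ε ≤ |d j - (a j + s * k)|}.ncard : ℝ) ≤ ε * X) →
      ∀ L : ℝ, 4 * s ≤ L → ∀ᶠ T : ℝ in atTop,
        L / (600 * s) * T ≤ ∫ τ in T..(2 * T),
          ‖∑ n ∈ Finset.Ioc (NZ τ) (NZ (τ + 2 * Real.pi * L / Real.log T)),
            e ((∑ i ∈ Finset.range n, a i) / s)‖ ^ 2) ∧
    (∀ (k : ℕ → ℤ) (σ : ℕ → ℂ),
      (∀ ε : ℝ, 0 < ε → ∀ᶠ X : ℕ in atTop,
        ({j : ℕ | 1 ≤ j ∧ j ≤ X ∧ ε ≤ |d j - k j / 2|}.ncard : ℝ) ≤ ε * X) →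
      (∀ n, σ n = 1 ∨ σ n = -1) → (∀ n, 1 ≤ n → σ (n + 1) = (-1) ^ (k n) * σ n) →
      (∀ (N : ℕ) (μ : ℂ), 576 ≤ N → ¬ WindowSums σ μ N (√N / 500)) ∧
      ∀ L : ℝ, 4 ≤ L → ∀ᶠ T : ℝ in atTop,
        L / 600 * T ≤ ∫ τ in T..(2 * T),
          ‖∑ n ∈ Finset.Ioc (NZ τ) (NZ (τ + 2 * Real.pi * L / Real.log T)), σ n‖ ^ 2) := by
  have hdel : ∀ n, H177.Lat.del n = d n := fun n => rfl
  have main : ∀ (s : ℝ) (a : ℕ → ℝ) (N : ℕ) (μ : ℂ), 1 ≤ s → 576 * s ≤ N →
      WindowSums (fun n => e ((∑ i ∈ Finset.range n, a i) / s)) μ N (√(N / s) / 500) →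
      ∃ ε : ℝ, 0 < ε ∧ ∀ᶠ X : ℕ in atTop,
        ε * X ≤ ({j : ℕ | 1 ≤ j ∧ j ≤ X ∧ ∀ k : ℤ, ε ≤ |d j - (a j + s * k)|}.ncard : ℝ) := by
    intro s a N μ hs hN h
    have hs0 : 0 < s := by linarith
    have h1 : (576 : ℝ) ≤ 1 / s * N := by
      rw [one_div_mul_eq_div, le_div_iff₀ hs0]
      exact hN
    obtain ⟨ε, hε, h2⟩ := Helper72K9.SQ.pattern_sqrt RH (1 / s) a (by positivity) (by
      rw [div_le_one hs0]; exact hs) N h1 μ (by
        intro m j hj
        have h3 := h m j hj
        have e1 : 1 / s * (N : ℝ) = N / s := by ring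
        rw [e1]
        refine le_trans (le_of_eq ?_) h3
        congr 1
        refine Finset.sum_congr rfl fun i _ => ?_
        rw [e_eq]
        unfold H177.Lat.sq
        rw [one_div_mul_eq_div])
    refine ⟨ε, hε, ?_⟩
    filter_upwards [h2] with X hX
    have e2 : ∀ (n : ℕ) (k : ℤ), H177.Lat.del n - a n - k / (1 / s) = d n - (a n + s * k) := by
      intro n k
      rw [hdel, div_div_eq_mul_div, div_one]
      ring
    simp only [e2] at hX
    exact hX
  have mean : ∀ (s : ℝ) (a : ℕ → ℝ), 1 ≤ s →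
      (∀ ε : ℝ, 0 < ε → ∀ᶠ X : ℕ in atTop,
        ({j : ℕ | 1 ≤ j ∧ j ≤ X ∧ ∀ k : ℤ, ε ≤ |d j - (a j + s * k)|}.ncard : ℝ) ≤ ε * X) →
      ∀ L : ℝ, 4 * s ≤ L → ∀ᶠ T : ℝ in atTop,
        L / (600 * s) * T ≤ ∫ τ in T..(2 * T),
          ‖∑ n ∈ Finset.Ioc (NZ τ) (NZ (τ + 2 * Real.pi * L / Real.log T)),
            e ((∑ i ∈ Finset.range n, a i) / s)‖ ^ 2 := by
    intro s a hs hA L hL
    have hs0 : 0 < s := by linarith
    have e2 : ∀ (n : ℕ) (k : ℤ), d n - (a n + s * k) = H177.Lat.del n - a n - k / (1 / s) := by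
      intro n k
      rw [hdel, div_div_eq_mul_div, div_one]
      ring
    simp only [e2] at hA
    have h1 := Helper72K9.SQ.var_main RH (1 / s) a (by positivity) (by
      rw [div_le_one hs0]; exact hs) hA L (by
        rw [one_div_mul_eq_div, le_div_iff₀ hs0]
        exact hL)
    filter_upwards [h1] with T hT
    have e3 : ∀ τ : ℝ, Helper72K9.SQ.GG (fun n => 1 / s * H177.Lat.sq a n)
        (2 * Real.pi * L / Real.log T) τ =
        ∑ n ∈ Finset.Ioc (NZ τ) (NZ (τ + 2 * Real.pi * L / Real.log T)),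
            e ((∑ i ∈ Finset.range n, a i) / s) := by
      intro τ
      unfold Helper72K9.SQ.GG
      refine Finset.sum_congr rfl fun n _ => ?_
      rw [e_eq]
      unfold H177.Lat.sq
      show e (1 / s * ∑ i ∈ Finset.range n, a i) = _
      rw [one_div_mul_eq_div]
    simp only [e3] at hT
    refine le_trans (le_of_eq ?_) hT
    field_simp
  refine ⟨main, mean, ?_⟩
  intro k σ hAH hσ hσk
  -- the pattern
  have hone : ∀ n : ℕ, σ 0 * σ 0 = 1 := by
    intro _
    rcases hσ 0 with h | h <;> rw [h] <;> norm_num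
  classical
  set a : ℕ → ℝ := fun n => if σ (n + 1) = σ n then 0 else 1 / 2 with ha
  have hphase : ∀ n, e ((∑ i ∈ Finset.range n, a i) / 1) = σ 0 * σ n := by
    intro n
    rw [div_one]
    induction n with
    | zero =>
      rw [Finset.sum_range_zero, hone 0]
      have := e_int 0
      simpa using this
    | succ n ih =>
      rw [Finset.sum_range_succ, e_add, ih]
      by_cases h : σ (n + 1) = σ n
      · have h1 : a n = 0 := by simp only [ha, if_pos h]
        have h2 : e 0 = 1 := by
          have := e_int 0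
          simpa using this
        rw [h1, h2, h, mul_one]
      · have h1 : a n = 1 / 2 := by simp only [ha, if_neg h]
        rw [h1, e_half]
        have h2 : σ (n + 1) = - σ n := by
          rcases hσ n with h3 | h3 <;> rcases hσ (n + 1) with h4 | h4 <;>
            rw [h3, h4] at h ⊢ <;> simp at h ⊢
        rw [h2]
        ring
  have hnorm0 : ‖σ 0‖ = 1 := by
    rcases hσ 0 with h | h <;> rw [h] <;> simp
  have hsub : ∀ (ε δ : ℝ) (X : ℕ), δ ≤ ε →
      {j : ℕ | 1 ≤ j ∧ j ≤ X ∧ ∀ k : ℤ, ε ≤ |d j - (a j + 1 * k)|} ⊆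
      {j : ℕ | 1 ≤ j ∧ j ≤ X ∧ δ ≤ |d j - k j / 2|} := by
    rintro ε δ X hδε j ⟨g1, g2, g3⟩
    refine ⟨g1, g2, ?_⟩
    -- `k_j / 2` belongs to `a_j + ℤ`
    have hmem : ∃ l : ℤ, (k j : ℝ) / 2 = a j + 1 * l := by
      have h4 := hσk j g1
      rcases Int.even_or_odd (k j) with h5 | h5
      · rw [h5.neg_one_zpow, one_mul] at h4
        obtain ⟨l, hl⟩ := h5
        refine ⟨l, ?_⟩
        have h6 : a j = 0 := by simp only [ha, if_pos h4]
        rw [h6, hl]
        push_cast
        ring
      · rw [h5.neg_one_zpow] at h4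
        obtain ⟨l, hl⟩ := h5
        refine ⟨l, ?_⟩
        have h7 : σ (j + 1) ≠ σ j := by
          intro h8
          rw [h8] at h4
          rcases hσ j with h9 | h9 <;> rw [h9] at h4 <;> norm_num at h4
        have h6 : a j = 1 / 2 := by simp only [ha, if_neg h7]
        rw [h6, hl]
        push_cast
        ring
    obtain ⟨l, hl⟩ := hmem
    rw [hl]
    exact hδε.trans (g3 l)
  have hfin : ∀ (δ : ℝ) (X : ℕ), {j : ℕ | 1 ≤ j ∧ j ≤ X ∧ δ ≤ |d j - k j / 2|}.Finite :=
    fun δ X => (Set.finite_Iic X).subset fun _ hn => hn.2.1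
  constructor
  · intro N μ hN hW
    have hW' : WindowSums (fun n => e ((∑ i ∈ Finset.range n, a i) / 1)) (σ 0 * μ) N
        (√(N / 1) / 500) := by
      intro m j hj
      have h1 := hW m j hj
      have h2 : ∑ i ∈ Finset.range j,
          ((fun n => e ((∑ i ∈ Finset.range n, a i) / 1)) (m + i) - σ 0 * μ) =
          σ 0 * ∑ i ∈ Finset.range j, (σ (m + i) - μ) := by
        rw [Finset.mul_sum]
        refine Finset.sum_congr rfl fun i _ => ?_
        show e ((∑ i ∈ Finset.range (m + i), a i) / 1) - σ 0 * μ = _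
        rw [hphase]
        ring
      rw [h2, norm_mul, div_one, hnorm0, one_mul]
      exact h1
    obtain ⟨ε, hε, h⟩ := main 1 a N (σ 0 * μ) le_rfl (by
      rw [mul_one]; exact_mod_cast hN) hW'
    have h1 := hAH (ε / 2) (by positivity)
    obtain ⟨X, hX1, hX2, hX3⟩ := (h.and (h1.and (eventually_ge_atTop 1))).exists
    have hX0 : (0 : ℝ) < X := by
      have : 0 < X := hX3
      exact_mod_cast this
    have hle : (({j : ℕ | 1 ≤ j ∧ j ≤ X ∧ ∀ k : ℤ, ε ≤ |d j - (a j + 1 * k)|}.ncard : ℕ) : ℝ) ≤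
        ({j : ℕ | 1 ≤ j ∧ j ≤ X ∧ ε / 2 ≤ |d j - k j / 2|}.ncard : ℝ) := by
      exact_mod_cast Set.ncard_le_ncard (hsub ε (ε / 2) X (by linarith)) (hfin _ _)
    have h9 : ε * X ≤ ε / 2 * X := (hX1.trans hle).trans hX2
    nlinarith
  · intro L hL
    have h1 := mean 1 a le_rfl (fun ε hε => by
      filter_upwards [hAH ε hε] with X hX
      refine le_trans ?_ hX
      exact_mod_cast Set.ncard_le_ncard (hsub ε ε X le_rfl) (hfin _ _)) L (by linarith)
    filter_upwards [h1] with T hT
    have e3 : ∀ τ : ℝ, ‖∑ n ∈ Finset.Ioc (NZ τ) (NZ (τ + 2 * Real.pi * L / Real.log T)),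
            e ((∑ i ∈ Finset.range n, a i) / 1)‖ ^ 2 =
        ‖∑ n ∈ Finset.Ioc (NZ τ) (NZ (τ + 2 * Real.pi * L / Real.log T)), σ n‖ ^ 2 := by
      intro τ
      have h2 : ∑ n ∈ Finset.Ioc (NZ τ) (NZ (τ + 2 * Real.pi * L / Real.log T)),
            e ((∑ i ∈ Finset.range n, a i) / 1) =
          σ 0 * ∑ n ∈ Finset.Ioc (NZ τ) (NZ (τ + 2 * Real.pi * L / Real.log T)), σ n := by
        rw [Finset.mul_sum]
        exact Finset.sum_congr rfl fun n _ => hphase n
      rw [h2, norm_mul, hnorm0, one_mul]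
    simp only [e3] at hT
    rw [mul_one] at hT
    exact hT

end Pool.Agent.Results.MP_f0209c_nt.SquareRootIrregularity
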