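import Pool.Agent.Helper72K9.UN.Mean

/-!
Assume the Riemann hypothesis.  The irregularity of the normalised spacings `d_j` of the zeta zeros is
uniform: the pattern may depend on the height, and finitely many heights are enough for each scale.

(I) For `s ≥ 1` and each integer `N ≥ 576 s` there are `ε > 0` and `X₀` such that for every `X ≥ X₀` and
EVERY pattern `a_0, ..., a_X` (it may depend on `X`) whose phases `e(S_n / s)`, `S_n = a_0 + ... + a_(n-1)`,
`n ≤ X`, have, for some `μ`, window sums `≤ √(N / s) / 1001` over at most `N` indices, at least `ε X` of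
the `j ≤ X` satisfy `|d_j - (a_j + s k)| ≥ ε` for all integers `k`.

(II) For each `N ≥ 576` there are `ε > 0` and `X₀` such that for every `X ≥ X₀`, all integers `k_j` and
all signs `τ_0, ..., τ_(X+1)` whose sums over windows of at most `N` of the indices `n ≤ X`, minus
`μ` for each index, are at most `√N / 1001`, at least `ε X` of the `1 ≤ j ≤ X` satisfy
`|d_j - k_j / 2| ≥ ε` or `τ_(j+1) ≠ (-1) ^ (k_j) τ_j`.  So for the parity word of the half-integral lattice
of the Alternative Hypothesis the changes of sign differ in a positive proportion of the places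
from those of every word with small window sums, at every large height, with a proportion which
depends on the scale `N` only; and if at one large height the parity word is regular at the scale
`N`, then a positive proportion of the spacings up to this height is away from the half-integers.

(III) For `s ≥ 1` and `L ≥ 4 s` there are `ε > 0` and `T₀` such that for every `T ≥ T₀` and every pattern
`a` (it may depend on `T`) which is followed modulo `s` up to `ε` by all but a proportion `ε` of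
the spacings `d_j`, `j ≤ N(3T)`, the mean square over `T ≤ τ ≤ 2T` of the sum of `e(S_n / s)` over the
zeros in `(τ, τ + 2 π L / log T]` is at least `L / (600 s)`.

Proof: a compactness argument.  Counterexamples for a rapidly increasing sequence of heights are
spliced into one pattern, rotated such that the mean values `μ` are all near one nonnegative number;
a window meets at most two of the blocks, so the window sums of the spliced pattern are at most
`√(N / s) / 500`, and the theorem for one pattern (`Helper72K9/SQ/Dis.lean`) applies.  For (III) the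
pattern between the blocks is `a_j = d_j`, and `Helper72K9/SQ/Mean.lean` is used.
-/

open Filter

namespace Pool.Agent.Results.MP_f0209c_nt.UniformIrregularity

/-- multiplicity of `s` as a zero of the Riemann zeta function (order of vanishing at `s`) -/
noncomputable def zmult (s : ℂ) : ℕ := analyticOrderNatAt riemannZeta s

/-- the number of nontrivial zeros of `ζ` with ordinate in `(0, t]`, with multiplicity -/
noncomputable def NZ (t : ℝ) : ℕ :=
  ∑ᶠ s ∈ {s : ℂ | riemannZeta s = 0 ∧ 0 < s.re ∧ s.re < 1 ∧ 0 < s.im ∧ s.im ≤ t}, zmult s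

/-- for `j ≥ 1`: the `j`-th positive ordinate `γ j` of a nontrivial zero of `ζ`, the ordinates being
listed in nondecreasing order and repeated according to multiplicity -/
noncomputable def γ (j : ℕ) : ℝ := sInf {t : ℝ | j ≤ NZ t}

/-- the normalised spacings `d_j = γ_{j+1} log γ_{j+1} / 2π - γ_j log γ_j / 2π` -/
noncomputable def d (j : ℕ) : ℝ :=
  (γ (j + 1) * Real.log (γ (j + 1)) - γ j * Real.log (γ j)) / (2 * Real.pi)

/-- `e(x) = exp (2 π i x)` -/
noncomputable def e (x : ℝ) : ℂ := Complex.exp (2 * Real.pi * x * Complex.I)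

/-- the sums of `f n - μ` over all windows of at most `N` consecutive integers `n` with
`0 ≤ n ≤ X` have absolute value at most `D` -/
def WindowSums (f : ℕ → ℂ) (μ : ℂ) (N X : ℕ) (D : ℝ) : Prop :=
  ∀ m j : ℕ, j ≤ N → m + j ≤ X + 1 → ‖∑ i ∈ Finset.range j, (f (m + i) - μ)‖ ≤ D

lemma e_eq (x : ℝ) : H177.Lat.ee x = e x := by
  unfold H177.Lat.ee e
  push_cast
  rfl

lemma e_add (x y : ℝ) : e (x + y) = e x * e y := by
  rw [← e_eq, ← e_eq, ← e_eq, H177.Lat.ee_add]

lemma e_int (x : ℤ) : e x = 1 := by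
  unfold e
  rw [Complex.exp_eq_one_iff]
  exact ⟨x, by push_cast; ring⟩

lemma e_half : e (1 / 2) = -1 := by
  unfold e
  have h : (2 * Real.pi * ((1 / 2 : ℝ) : ℂ) * Complex.I : ℂ) = Real.pi * Complex.I := by
    push_cast
    ring
  rw [h, Complex.exp_pi_mul_I]

/-- On the Riemann hypothesis:
(I) For `s ≥ 1` and each integer `N ≥ 576 s` there are `ε > 0` and `X₀` such that for every `X ≥ X₀`,
every real sequence `a` and every `μ` for which the sums of `e(S_n / s) - μ`,
`S_n = a_0 + ... + a_(n-1)`, over all windows of at most `N` of the indices `0 ≤ n ≤ X` have absolute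
value at most `√(N / s) / 1001`, at least `ε X` of the `1 ≤ j ≤ X` satisfy
`|d_j - (a_j + s k)| ≥ ε` for all integers `k`.
(II) For each `N ≥ 576` there are `ε > 0` and `X₀` such that for every `X ≥ X₀`, all integers `k_j`,
all signs `τ_j` and all `μ` for which the sums of `τ_n - μ` over all windows of at most `N` of the
indices `0 ≤ n ≤ X` have absolute value at most `√N / 1001`, at least `ε X` of the `1 ≤ j ≤ X`
satisfy `|d_j - k_j / 2| ≥ ε` or `τ_(j+1) ≠ (-1) ^ (k_j) τ_j`.
(III) For `s ≥ 1` and `L ≥ 4 s` there are `ε > 0` and `T₀` such that for every `T ≥ T₀` and every real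
sequence `a` for which at most `ε NZ(3T)` of the `1 ≤ j ≤ NZ(3T)` satisfy
`|d_j - (a_j + s k)| ≥ ε` for all integers `k`, the mean square over `T ≤ τ ≤ 2T` of the sum of
`e(S_n / s)` over the `n` with `NZ(τ) < n ≤ NZ(τ + 2 π L / log T)` is at least `L / (600 s)`. -/
theorem result (RH : RiemannHypothesis) :
    (∀ (s : ℝ) (N : ℕ), 1 ≤ s → 576 * s ≤ N →
      ∃ ε : ℝ, 0 < ε ∧ ∃ X₀ : ℕ, ∀ X : ℕ, X₀ ≤ X → ∀ (a : ℕ → ℝ) (μ : ℂ),
        WindowSums (fun n => e ((∑ i ∈ Finset.range n, a i) / s)) μ N X (√(N / s) / 1001) →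
        ε * X ≤ ({j : ℕ | 1 ≤ j ∧ j ≤ X ∧ ∀ k : ℤ, ε ≤ |d j - (a j + s * k)|}.ncard : ℝ)) ∧
    (∀ N : ℕ, 576 ≤ N →
      ∃ ε : ℝ, 0 < ε ∧ ∃ X₀ : ℕ, ∀ X : ℕ, X₀ ≤ X → ∀ (k : ℕ → ℤ) (τ : ℕ → ℂ) (μ : ℂ),
        (∀ n, τ n = 1 ∨ τ n = -1) → WindowSums τ μ N X (√N / 1001) →
        ε * X ≤ ({j : ℕ | 1 ≤ j ∧ j ≤ X ∧
          (ε ≤ |d j - k j / 2| ∨ τ (j + 1) ≠ (-1) ^ (k j) * τ j)}.ncard : ℝ)) ∧
    (∀ s L : ℝ, 1 ≤ s → 4 * s ≤ L →
      ∃ ε : ℝ, 0 < ε ∧ ∃ T₀ : ℝ, ∀ T : ℝ, T₀ ≤ T → ∀ a : ℕ → ℝ,
        ({j : ℕ | 1 ≤ j ∧ j ≤ NZ (3 * T) ∧ ∀ k : ℤ, ε ≤ |d j - (a j + s * k)|}.ncard : ℝ) ≤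
          ε * NZ (3 * T) →
        L / (600 * s) * T ≤ ∫ τ in T..(2 * T),
          ‖∑ n ∈ Finset.Ioc (NZ τ) (NZ (τ + 2 * Real.pi * L / Real.log T)),
            e ((∑ i ∈ Finset.range n, a i) / s)‖ ^ 2) := by
  have hdel : ∀ n, H177.Lat.del n = d n := fun n => rfl
  have main : ∀ (s : ℝ) (N : ℕ), 1 ≤ s → 576 * s ≤ N →
      ∃ ε : ℝ, 0 < ε ∧ ∃ X₀ : ℕ, ∀ X : ℕ, X₀ ≤ X → ∀ (a : ℕ → ℝ) (μ : ℂ),
        WindowSums (fun n => e ((∑ i ∈ Finset.range n, a i) / s)) μ N X (√(N / s) / 1001) →
        ε * X ≤ ({j : ℕ | 1 ≤ j ∧ j ≤ X ∧ ∀ k : ℤ, ε ≤ |d j - (a j + s * k)|}.ncard : ℝ) := by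
    intro s N hs hN
    have hs0 : 0 < s := by linarith
    obtain ⟨ε, hε, X₀, h⟩ := Pool.Agent.Helper72K9.UN.unif RH (1 / s) (by positivity) (by
      rw [div_le_one hs0]; exact hs) N (by
        rw [one_div_mul_eq_div, le_div_iff₀ hs0]
        exact hN)
    refine ⟨ε, hε, X₀, fun X hX a μ hW => ?_⟩
    have h1 := h X hX a μ (by
      intro m j hj hmj
      have h3 := hW m j hj hmj
      have e1 : 1 / s * (N : ℝ) = N / s := by ring
      rw [e1]
      refine le_trans (le_of_eq ?_) h3
      congr 1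
      refine Finset.sum_congr rfl fun i _ => ?_
      rw [e_eq]
      unfold H177.Lat.sq
      rw [one_div_mul_eq_div])
    have e2 : ∀ (n : ℕ) (k : ℤ), H177.Lat.del n - a n - k / (1 / s) = d n - (a n + s * k) := by
      intro n k
      rw [hdel, div_div_eq_mul_div, div_one]
      ring
    unfold Pool.Agent.Helper72K9.UN.BadS at h1
    simp only [e2] at h1
    exact h1
  refine ⟨main, ?_, ?_⟩
  swap
  · intro s L hs hL
    have hs0 : 0 < s := by linarith
    obtain ⟨ε, hε, T₀, h⟩ := Pool.Agent.Helper72K9.UN.var_unif RH (1 / s) (by positivity) (by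
      rw [div_le_one hs0]; exact hs) L (by
        rw [one_div_mul_eq_div, le_div_iff₀ hs0]
        exact hL)
    refine ⟨ε, hε, T₀, fun T hT a ha => ?_⟩
    have e2 : ∀ (n : ℕ) (k : ℤ), d n - (a n + s * k) = H177.Lat.del n - a n - k / (1 / s) := by
      intro n k
      rw [hdel, div_div_eq_mul_div, div_one]
      ring
    simp only [e2] at ha
    have hT' := h T hT a ha
    have e3 : ∀ τ : ℝ, Pool.Agent.Helper72K9.SQ.GG (fun n => 1 / s * H177.Lat.sq a n)
        (2 * Real.pi * L / Real.log T) τ =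
        ∑ n ∈ Finset.Ioc (NZ τ) (NZ (τ + 2 * Real.pi * L / Real.log T)),
            e ((∑ i ∈ Finset.range n, a i) / s) := by
      intro τ
      unfold Pool.Agent.Helper72K9.SQ.GG
      refine Finset.sum_congr rfl fun n _ => ?_
      rw [e_eq]
      unfold H177.Lat.sq
      show e (1 / s * ∑ i ∈ Finset.range n, a i) = _
      rw [one_div_mul_eq_div]
    simp only [e3] at hT'
    refine le_trans (le_of_eq ?_) hT'
    field_simp
  intro N hN
  obtain ⟨ε, hε, X₀, hmain⟩ := main 1 N le_rfl (by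
    rw [mul_one]; exact_mod_cast hN)
  refine ⟨ε, hε, X₀, fun X hX k σ μ hσ hW => ?_⟩
  -- the pattern
  have hone : ∀ n : ℕ, σ 0 * σ 0 = 1 := by
    intro _
    rcases hσ 0 with h | h <;> rw [h] <;> norm_num
  classical
  set a : ℕ → ℝ := fun n => if σ (n + 1) = σ n then 0 else 1 / 2 with ha
  have hphase : ∀ n, e ((∑ i ∈ Finset.range n, a i) / 1) = σ 0 * σ n := by
    intro n
    rw [div_one]
    induction n with
    | zero =>
      rw [Finset.sum_range_zero, hone 0]
      have := e_int 0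
      simpa using this
    | succ n ih =>
      rw [Finset.sum_range_succ, e_add, ih]
      by_cases h : σ (n + 1) = σ n
      · have h1 : a n = 0 := by simp only [ha, if_pos h]
        have h2 : e 0 = 1 := by
          have := e_int 0
          simpa using this
        rw [h1, h2, h, mul_one]
      · have h1 : a n = 1 / 2 := by simp only [ha, if_neg h]
        rw [h1, e_half]
        have h2 : σ (n + 1) = - σ n := by
          rcases hσ n with h3 | h3 <;> rcases hσ (n + 1) with h4 | h4 <;>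
            rw [h3, h4] at h ⊢ <;> simp at h ⊢
        rw [h2]
        ring
  have hnorm0 : ‖σ 0‖ = 1 := by
    rcases hσ 0 with h | h <;> rw [h] <;> simp
  have hsub : {j : ℕ | 1 ≤ j ∧ j ≤ X ∧ ∀ k : ℤ, ε ≤ |d j - (a j + 1 * k)|} ⊆
      {j : ℕ | 1 ≤ j ∧ j ≤ X ∧ (ε ≤ |d j - k j / 2| ∨ σ (j + 1) ≠ (-1) ^ (k j) * σ j)} := by
    rintro j ⟨g1, g2, g3⟩
    refine ⟨g1, g2, ?_⟩
    by_cases h4 : σ (j + 1) = (-1) ^ (k j) * σ j
    swap
    · exact Or.inr h4
    left
    -- `k_j / 2` belongs to `a_j + ℤ`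
    have hmem : ∃ l : ℤ, (k j : ℝ) / 2 = a j + 1 * l := by
      rcases Int.even_or_odd (k j) with h5 | h5
      · rw [h5.neg_one_zpow, one_mul] at h4
        obtain ⟨l, hl⟩ := h5
        refine ⟨l, ?_⟩
        have h6 : a j = 0 := by simp only [ha, if_pos h4]
        rw [h6, hl]
        push_cast
        ring
      · rw [h5.neg_one_zpow] at h4
        obtain ⟨l, hl⟩ := h5
        refine ⟨l, ?_⟩
        have h7 : σ (j + 1) ≠ σ j := by
          intro h8
          rw [h8] at h4
          rcases hσ j with h9 | h9 <;> rw [h9] at h4 <;> norm_num at h4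
        have h6 : a j = 1 / 2 := by simp only [ha, if_neg h7]
        rw [h6, hl]
        push_cast
        ring
    obtain ⟨l, hl⟩ := hmem
    rw [hl]
    exact g3 l
  have hfin : {j : ℕ | 1 ≤ j ∧ j ≤ X ∧
      (ε ≤ |d j - k j / 2| ∨ σ (j + 1) ≠ (-1) ^ (k j) * σ j)}.Finite :=
    (Set.finite_Iic X).subset fun _ hn => hn.2.1
  have hW' : WindowSums (fun n => e ((∑ i ∈ Finset.range n, a i) / 1)) (σ 0 * μ) N X
      (√(N / 1) / 1001) := by
    intro m j hj hmj
    have h1 := hW m j hj hmj
    have h2 : ∑ i ∈ Finset.range j,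
        ((fun n => e ((∑ i ∈ Finset.range n, a i) / 1)) (m + i) - σ 0 * μ) =
        σ 0 * ∑ i ∈ Finset.range j, (σ (m + i) - μ) := by
      rw [Finset.mul_sum]
      refine Finset.sum_congr rfl fun i _ => ?_
      show e ((∑ i ∈ Finset.range (m + i), a i) / 1) - σ 0 * μ = _
      rw [hphase]
      ring
    rw [h2, norm_mul, div_one, hnorm0, one_mul]
    exact h1
  refine (hmain X hX a (σ 0 * μ) hW').trans ?_
  exact_mod_cast Set.ncard_le_ncard hsub hfin

end Pool.Agent.Results.MP_f0209c_nt.UniformIrregularity
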